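import Pool.Agent.P.MP_416653_co.ExB

namespace Pool.Agent.Results.MP_416653_co.ConstantFactor

/-- For every large clique number the conjectured bound fails by a constant factor in the
deficiency. -/
theorem result : ∃ ε : ℝ, 0 < ε ∧ ∃ ω₀ : ℕ, ∀ ω : ℕ, ω₀ ≤ ω →
    ∃ (V : Type) (_ : Fintype V) (_ : DecidableEq V) (G : SimpleGraph V) (_ : DecidableRel G.Adj)
      (hA : (G.adjMatrix ℝ).IsHermitian) (S : Finset V),
      (∃ s : Finset V, G.IsNClique ω s) ∧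
      (∀ (k : ℕ) (s : Finset V), G.IsNClique k s → k ≤ ω) ∧
      S.card ≤ ω ∧ (∀ i ∈ S, 0 < hA.eigenvalues i) ∧
      2 * (1 - (1 - ε) / (ω : ℝ)) * (Nat.card G.edgeSet : ℝ) < ∑ i ∈ S, hA.eigenvalues i ^ 2 :=
  Pool.Agent.P.MP_416653_co.Ex.main

/-- The negated form of the question, from `result` alone. -/
theorem posed :
    ¬ (∀ (V : Type) [Fintype V] [DecidableEq V] (G : SimpleGraph V) [DecidableRel G.Adj]
      (hA : (G.adjMatrix ℝ).IsHermitian) (ω : ℕ),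
      (∃ s : Finset V, G.IsNClique ω s) →
      (∀ (k : ℕ) (s : Finset V), G.IsNClique k s → k ≤ ω) →
      ∀ S : Finset V, S.card ≤ ω → (∀ i ∈ S, 0 < hA.eigenvalues i) →
        ∑ i ∈ S, hA.eigenvalues i ^ 2 ≤ 2 * (1 - 1 / (ω : ℝ)) * (Nat.card G.edgeSet : ℝ)) := by
  intro h
  obtain ⟨ε, hε, ω, hω⟩ := result
  obtain ⟨V, _, _, G, _, hA, S, h1, h2, h3, h4, h5⟩ := hω ω le_rfl
  refine absurd ((h V G hA ω h1 h2 S h3 h4).trans ?_) (not_le.2 h5)
  have h6 : (1 - ε) / (ω : ℝ) ≤ 1 / (ω : ℝ) :=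
    div_le_div_of_nonneg_right (by linarith) (Nat.cast_nonneg _)
  exact mul_le_mul_of_nonneg_right (by linarith) (Nat.cast_nonneg _)

end Pool.Agent.Results.MP_416653_co.ConstantFactor
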