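import Pool.Agent.P.MP_416653_co.WkI

namespace Pool.Agent.Results.MP_416653_co.NoLog

/-- In a graph with no clique larger than `ω` and `m` edges, any at most `ω` positive adjacency
eigenvalues have squares summing to at most `2 (1 - 1 / (10^30 ω)) m`. -/
theorem result :
    ∀ (V : Type) [Fintype V] [DecidableEq V] (G : SimpleGraph V) [DecidableRel G.Adj]
      (hA : (G.adjMatrix ℝ).IsHermitian) (ω : ℕ),
      (∀ (k : ℕ) (s : Finset V), G.IsNClique k s → k ≤ ω) →
      ∀ S : Finset V, S.card ≤ ω → (∀ i ∈ S, 0 < hA.eigenvalues i) →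
        ∑ i ∈ S, hA.eigenvalues i ^ 2 ≤
          2 * (1 - 1 / (10 ^ 30 * (ω : ℝ))) * (Nat.card G.edgeSet : ℝ) :=
  Pool.Agent.P.MP_416653_co.Wk.main2

end Pool.Agent.Results.MP_416653_co.NoLog
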